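import Pool.Agent.H79.QN.Stmts3

set_option autoImplicit false

namespace Pool.Agent.H79.QN

open Finset MeasureTheory

theorem lvl_pt (y l : ℝ) (J : ℕ) (hy : 0 ≤ y) (hl : 0 < l) (hJ : y ≤ 2 ^ J * l) :
    y ^ 4 ≤ l ^ 2 * y ^ 2 +
      ∑ j ∈ range (J + 1), if 2 ^ j * l ≤ y then (2 ^ (j + 1) * l) ^ 4 else 0 := by
  have hsum : ∀ j ∈ range (J + 1),
      (0:ℝ) ≤ if 2 ^ j * l ≤ y then (2 ^ (j + 1) * l) ^ 4 else 0 := by
    intro j _
    split_ifs
    · positivity
    · exact le_rfl
  by_cases h : y ≤ l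
  · have h1 : y ^ 2 ≤ l ^ 2 := pow_le_pow_left₀ hy h 2
    have h2 : y ^ 4 ≤ l ^ 2 * y ^ 2 := by
      calc y ^ 4 = y ^ 2 * y ^ 2 := by ring
        _ ≤ l ^ 2 * y ^ 2 := mul_le_mul_of_nonneg_right h1 (sq_nonneg y)
    linarith [sum_nonneg hsum]
  push Not at h
  classical
  have hex : ∃ j, j ∈ (range (J + 1)).filter (fun j => 2 ^ j * l ≤ y) :=
    ⟨0, by simp [h.le]⟩
  obtain ⟨j, hj, hmax⟩ := exists_max_image _ (fun j : ℕ => j) hex
  rw [mem_filter, mem_range] at hj
  have hy2 : y ≤ 2 ^ (j + 1) * l := by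
    by_cases hjJ : j = J
    · refine hJ.trans ?_
      rw [hjJ, pow_succ]
      nlinarith [pow_pos (by norm_num : (0:ℝ) < 2) J, mul_pos (pow_pos (by norm_num : (0:ℝ) < 2) J) hl]
    · by_contra hcon
      push Not at hcon
      have : j + 1 ∈ (range (J + 1)).filter (fun j => 2 ^ j * l ≤ y) := by
        rw [mem_filter, mem_range]
        exact ⟨by omega, hcon.le⟩
      have := hmax _ this
      simp at this
  have h3 : y ^ 4 ≤ (2 ^ (j + 1) * l) ^ 4 := pow_le_pow_left₀ hy hy2 4
  have h4 : (2 ^ (j + 1) * l) ^ 4 ≤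
      ∑ j ∈ range (J + 1), if 2 ^ j * l ≤ y then (2 ^ (j + 1) * l) ^ 4 else 0 := by
    have := single_le_sum hsum (mem_range.mpr hj.1)
    rw [if_pos hj.2] at this
    exact this
  have h5 : 0 ≤ l ^ 2 * y ^ 2 := by positivity
  linarith

theorem lvl : S_LVL := by
  intro f a b l W J hf hf0 ha hab hb hl hW hJ hlev
  have hSm : ∀ j : ℕ, MeasurableSet {x | 2 ^ j * l ≤ f x} := fun j =>
    measurableSet_le measurable_const hf.measurable
  have hfin : IsFiniteMeasure (volume.restrict (Set.Ioc a b)) := by infer_instance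
  have hi4 : Integrable (fun x => f x ^ 4) (volume.restrict (Set.Ioc a b)) :=
    ((hf.pow 4).integrableOn_Icc (a := a) (b := b)).mono_set Set.Ioc_subset_Icc_self
  have hi2 : Integrable (fun x => l ^ 2 * f x ^ 2) (volume.restrict (Set.Ioc a b)) :=
    (((continuous_const.mul (hf.pow 2))).integrableOn_Icc (a := a) (b := b)).mono_set
      Set.Ioc_subset_Icc_self
  have hij : ∀ j ∈ range (J + 1), Integrable
      ({x | 2 ^ j * l ≤ f x}.indicator fun _ => (2 ^ (j + 1) * l) ^ 4)
      (volume.restrict (Set.Ioc a b)) :=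
    fun j _ => (integrable_const _).indicator (hSm j)
  have hpt : ∀ x, f x ^ 4 ≤ l ^ 2 * f x ^ 2 + ∑ j ∈ range (J + 1),
      ({x | 2 ^ j * l ≤ f x}.indicator fun _ => (2 ^ (j + 1) * l) ^ 4) x := by
    intro x
    refine (lvl_pt (f x) l J (hf0 x) hl (hJ x)).trans (le_of_eq ?_)
    congr 1
  rw [intervalIntegral.integral_of_le hab, intervalIntegral.integral_of_le hab]
  calc ∫ x in Set.Ioc a b, f x ^ 4
      ≤ ∫ x in Set.Ioc a b, (l ^ 2 * f x ^ 2 + ∑ j ∈ range (J + 1),
        ({x | 2 ^ j * l ≤ f x}.indicator fun _ => (2 ^ (j + 1) * l) ^ 4) x) :=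
        integral_mono hi4 (hi2.add (integrable_finset_sum _ hij)) hpt
    _ = l ^ 2 * (∫ x in Set.Ioc a b, f x ^ 2) + ∑ j ∈ range (J + 1),
        (volume.restrict (Set.Ioc a b)).real {x | 2 ^ j * l ≤ f x} * (2 ^ (j + 1) * l) ^ 4 := by
        rw [integral_add hi2 (integrable_finset_sum _ hij), integral_const_mul,
          integral_finset_sum _ hij]
        congr 1
        refine sum_congr rfl fun j _ => ?_
        rw [integral_indicator_const _ (hSm j), smul_eq_mul]
    _ ≤ l ^ 2 * (∫ x in Set.Ioc a b, f x ^ 2) + ∑ _j ∈ range (J + 1), 16 * W := by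
        have hle : ∀ j ∈ range (J + 1),
            (volume.restrict (Set.Ioc a b)).real {x | 2 ^ j * l ≤ f x} * (2 ^ (j + 1) * l) ^ 4 ≤
              16 * W := by
          intro j _
          have hlj : l ≤ 2 ^ j * l := by
            have : (1:ℝ) ≤ 2 ^ j := one_le_pow₀ (by norm_num)
            nlinarith
          have h1 := hlev (2 ^ j * l) hlj
          have h2 : (volume.restrict (Set.Ioc a b)).real {x | 2 ^ j * l ≤ f x} ≤
              (Pool.QN.mu {x | 2 ^ j * l ≤ f x}).toReal := by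
            unfold Measure.real
            refine ENNReal.toReal_mono ?_ ?_
            · unfold Pool.QN.mu
              exact measure_ne_top _ _
            · unfold Pool.QN.mu
              refine Measure.restrict_mono ?_ le_rfl _
              intro x hx
              exact ⟨ha.trans hx.1.le, hx.2.trans hb⟩
          calc (volume.restrict (Set.Ioc a b)).real {x | 2 ^ j * l ≤ f x} * (2 ^ (j + 1) * l) ^ 4
              ≤ (Pool.QN.mu {x | 2 ^ j * l ≤ f x}).toReal * (2 ^ (j + 1) * l) ^ 4 :=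
                mul_le_mul_of_nonneg_right h2 (by positivity)
            _ = 16 * ((2 ^ j * l) ^ 4 * (Pool.QN.mu {x | 2 ^ j * l ≤ f x}).toReal) := by
                rw [pow_succ (2:ℝ) j]; ring
            _ ≤ 16 * W := by linarith
        linarith [sum_le_sum hle]
    _ = l ^ 2 * (∫ x in Set.Ioc a b, f x ^ 2) + 16 * (J + 1) * W := by
        rw [sum_const, card_range, nsmul_eq_mul]
        push_cast
        ring

end Pool.Agent.H79.QN
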